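import Mathlib

namespace Pool.Agent.H.MP_4928aa_an

open Finset Real Filter Topology MeasureTheory
open scoped Nat

/-- the character `exp (2 π i x)` -/
noncomputable def ee (x : ℝ) : ℂ := Complex.exp ((2 * π * x : ℝ) * Complex.I)

lemma ee_add (x y : ℝ) : ee (x + y) = ee x * ee y := by
  rw [ee, ee, ee, ← Complex.exp_add]; congr 1; push_cast; ring

@[simp] lemma ee_zero : ee 0 = 1 := by simp [ee]

@[simp] lemma norm_ee (x : ℝ) : ‖ee x‖ = 1 := Complex.norm_exp_ofReal_mul_I _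

lemma ee_ne (x : ℝ) : ee x ≠ 0 := Complex.exp_ne_zero _

lemma conj_ee (x : ℝ) : (starRingEnd ℂ) (ee x) = ee (-x) := by
  rw [ee, ee, ← Complex.exp_conj, map_mul, Complex.conj_ofReal, Complex.conj_I]
  congr 1; push_cast; ring

lemma ee_pow (x : ℝ) (n : ℕ) : ee x ^ n = ee (n * x) := by
  rw [ee, ee, ← Complex.exp_nat_mul]; congr 1; push_cast; ring

@[fun_prop] lemma ee_cont : Continuous ee := by unfold ee; fun_prop

lemma norm_one_sub (x : ℝ) : ‖1 - ee x‖ ^ 2 = 2 - 2 * cos (2 * π * x) := by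
  rw [Complex.sq_norm, Complex.normSq_apply, ee]
  simp only [Complex.sub_re, Complex.sub_im, Complex.one_re, Complex.one_im,
    Complex.exp_ofReal_mul_I_re, Complex.exp_ofReal_mul_I_im]
  nlinarith [cos_sq_add_sin_sq (2 * π * x)]

lemma pow_exp {u : ℝ} (h : 0 < u) (n : ℕ) : exp (-u) ≤ n ! * u⁻¹ ^ n := by
  have := pow_div_factorial_le_exp u h.le n
  rw [exp_neg, inv_pow, ← div_eq_mul_inv, inv_eq_one_div, div_le_div_iff₀ (exp_pos _) (by positivity)]
  rw [div_le_iff₀' (by positivity)] at this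
  linarith

/-- trigonometric polynomial -/
noncomputable def tp (N : ℕ) (q : ℕ → ℂ) (u : ℝ) : ℂ :=
  ∑ k ∈ range (2 * N + 1), q k * ee ((k - N : ℤ) * u)

lemma base {N : ℕ} (hN : 0 < N) : ∃ q : ℕ → ℂ, q N = 1 ∧
    ∀ u, ‖tp N q u‖ ≤ 2 * N * ((1 - cos (2 * π * u)) / 2) ^ N := by
  have h0 : (0 : ℝ) < N.centralBinom := by exact_mod_cast N.centralBinom_pos
  refine ⟨fun k => (-1) ^ (k + N) * (2 * N).choose k / N.centralBinom, ?_, fun u => ?_⟩
  · beta_reduce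
    rw [← two_mul, pow_mul, ← Nat.centralBinom_eq_two_mul_choose]
    have : (N.centralBinom : ℂ) ≠ 0 := by exact_mod_cast N.centralBinom_pos.ne'
    simp [this]
  have h1 : tp N (fun k => (-1) ^ (k + N) * (2 * N).choose k / N.centralBinom) u =
      (-1) ^ N * ee (-N * u) / N.centralBinom * (-ee u + 1) ^ (2 * N) := by
    rw [tp, add_pow, mul_sum]
    refine sum_congr rfl fun k _ => ?_
    rw [neg_pow (ee u), ee_pow, show ((k - N : ℤ) : ℝ) * u = -N * u + k * u by push_cast; ring, ee_add]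
    ring
  have h2 : (4 : ℝ) ^ N ≤ 2 * N * N.centralBinom := by
    exact_mod_cast Nat.four_pow_le_two_mul_self_mul_centralBinom N hN
  rw [h1, norm_mul, norm_pow, pow_mul, neg_add_eq_sub, norm_one_sub]
  simp only [norm_div, norm_mul, norm_pow, norm_neg, norm_one, one_pow, norm_ee, Complex.norm_natCast]
  rw [show 2 - 2 * cos (2 * π * u) = 4 * ((1 - cos (2 * π * u)) / 2) by ring, mul_pow, ← mul_assoc]
  refine mul_le_mul_of_nonneg_right ?_ (pow_nonneg (by linarith [cos_le_one (2 * π * u)]) _)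
  rw [div_mul_eq_mul_div, div_le_iff₀ h0]
  linarith

lemma kill {N : ℕ} {n B B' : ℝ} (hn : 0 < n) {q : ℕ → ℂ} (h1 : q N = 1)
    (h2 : ∀ u, ‖tp N q u‖ ≤ B) (h3 : ∀ u, n⁻¹ ≤ 1 + cos (2 * π * u) → ‖tp N q u‖ ≤ B')
    (s : Finset ℤ) (hs : ∀ m ∈ s, 1 ≤ |(m : ℝ)| ∧ 2 * |(m : ℝ)| ≤ n) :
    ∃ q : ℕ → ℂ, q N = 1 ∧ (∀ k : ℕ, (k - N : ℤ) ∈ s → q k = 0) ∧
      (∀ u, ‖tp N q u‖ ≤ n ^ s.card * B) ∧
      ∀ u, n⁻¹ * (1 + 7 * s.card) ≤ 1 + cos (2 * π * u) → ‖tp N q u‖ ≤ n ^ s.card * B' := by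
  induction s using Finset.induction_on with
  | empty => exact ⟨q, h1, by simp, by simpa using h2, by simpa using h3⟩
  | insert m s hm ih =>
    obtain ⟨q, h1, h4, h2, h3⟩ := ih fun m hm => hs m (mem_insert_of_mem hm)
    obtain ⟨h5, h6⟩ := hs m (mem_insert_self _ _)
    have hπ := pi_pos
    have h7 : 2 / n ≤ ‖1 - ee (m * n⁻¹)‖ := by
      refine (pow_le_pow_iff_left₀ (by positivity) (norm_nonneg _) two_ne_zero).1 ?_
      have h7 := cos_le_one_sub_mul_cos_sq (x := 2 * π * (m * n⁻¹)) (by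
        rw [abs_mul, abs_mul (m : ℝ), abs_of_pos (inv_pos.2 hn), abs_of_pos (by positivity),
          ← div_eq_mul_inv, ← mul_div_assoc, div_le_iff₀ hn]
        nlinarith)
      have h8 : 2 / π ^ 2 * (2 * π * (m * n⁻¹)) ^ 2 = 8 * (m ^ 2 * n⁻¹ ^ 2) := by field_simp; ring
      have h9 : (1 : ℝ) ≤ m ^ 2 := by nlinarith [sq_abs (m : ℝ)]
      rw [norm_one_sub, div_eq_mul_inv]
      nlinarith [sq_nonneg n⁻¹]
    have h8 : 1 - ee (m * n⁻¹) ≠ 0 := norm_pos_iff.1 (lt_of_lt_of_le (by positivity) h7)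
    have h9 : ∀ u C, ‖tp N q (u + n⁻¹)‖ ≤ n ^ s.card * C → ‖tp N q u‖ ≤ n ^ s.card * C →
        ‖tp N (fun k => q k * (ee ((k - N : ℤ) * n⁻¹) - ee (m * n⁻¹)) / (1 - ee (m * n⁻¹))) u‖ ≤
        n ^ (s.card + 1) * C := fun u C h h' => by
      have : tp N (fun k => q k * (ee ((k - N : ℤ) * n⁻¹) - ee (m * n⁻¹)) / (1 - ee (m * n⁻¹))) u =
          (tp N q (u + n⁻¹) - ee (m * n⁻¹) * tp N q u) / (1 - ee (m * n⁻¹)) := by
        simp only [tp, mul_sum, ← sum_sub_distrib, sum_div, mul_add, ee_add]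
        exact sum_congr rfl fun k _ => by ring
      have h10 := norm_sub_le (tp N q (u + n⁻¹)) (ee (m * n⁻¹) * tp N q u)
      rw [norm_mul, norm_ee, one_mul] at h10
      rw [this, norm_div, div_le_iff₀ (norm_pos_iff.2 h8)]
      have h11 := mul_le_mul_of_nonneg_left h7 (mul_nonneg hn.le ((norm_nonneg _).trans h))
      rw [show n * (n ^ s.card * C) * (2 / n) = 2 * (n ^ s.card * C) by field_simp] at h11
      rw [pow_succ]
      linarith
    rw [card_insert_of_notMem hm]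
    refine ⟨_, by simp [h1, h8], fun k hk => ?_, fun u => h9 u B (h2 _) (h2 _),
      fun u hu => h9 u B' (h3 _ ?_) (h3 _ ?_)⟩
    · rcases mem_insert.1 hk with h | h
      · simp [h]
      · simp [h4 k h]
    · have := abs_cos_sub_cos_le (2 * π * u) (2 * π * (u + n⁻¹))
      rw [show 2 * π * u - 2 * π * (u + n⁻¹) = -(2 * π * n⁻¹) by ring, abs_neg,
        abs_of_pos (by positivity : 0 < 2 * π * n⁻¹)] at this
      push_cast at hu
      nlinarith [pi_lt_d2, le_abs_self (cos (2 * π * u) - cos (2 * π * (u + n⁻¹))), inv_pos.2 hn]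
    · push_cast at hu
      nlinarith [inv_pos.2 hn]

lemma core (a : ℕ) {ε : ℝ} (hε : 0 < ε) : ∃ (N : ℕ) (q : ℕ → ℂ), q N = 1 ∧
    (∀ k : ℕ, k ≠ N → |(k - N : ℤ)| ≤ a → q k = 0) ∧ ∀ u g w : ℝ, 0 ≤ g →
      (∀ m, g ≤ (2 * m)! * (1 + cos (2 * π * u)) ^ m * w) → ‖tp N q u‖ * g ≤ ε * w := by
  obtain ⟨s, hs⟩ : ∃ s, s = (Icc (-a : ℤ) a).erase 0 := ⟨_, rfl⟩
  obtain ⟨c, hc⟩ : ∃ c, c = s.card := ⟨_, rfl⟩
  obtain ⟨n, h1, h2, h3, h4⟩ := (((eventually_ge_atTop (2 * a)).and ((eventually_gt_atTop 0).and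
    ((tendsto_natCast_atTop_atTop.eventually_ge_atTop (2 * ((c + 3)! * 2 ^ (c + 3)) / ε)).and
    (tendsto_natCast_atTop_atTop.eventually_ge_atTop
      (2 * ((2 * (c + 3))! * (1 + 7 * c) ^ (c + 3)) / ε)))))).exists
  have n0 : (0 : ℝ) < n := by exact_mod_cast h2
  obtain ⟨q, h5, h6⟩ := base (N := n ^ 2) (by positivity)
  have h7 : ∀ u, 0 ≤ (1 - cos (2 * π * u)) / 2 := fun u => by linarith [cos_le_one (2 * π * u)]
  obtain ⟨q, h8, h9, h10, h11⟩ := kill (B := 2 * n ^ 2) (B' := 2 * n ^ 2 * exp (-(n / 2))) n0 h5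
    (fun u => (h6 u).trans (by
      push_cast
      exact mul_le_of_le_one_right (by positivity) (pow_le_one₀ (h7 u)
        (by linarith [neg_one_le_cos (2 * π * u)]))))
    (fun u hu => (h6 u).trans (by
      push_cast
      refine mul_le_mul_of_nonneg_left (le_of_le_of_eq (pow_le_pow_left₀ (h7 u)
        (show _ ≤ exp (-((n : ℝ)⁻¹ / 2)) by linarith [add_one_le_exp (-((n : ℝ)⁻¹ / 2))]) _) ?_)
        (by positivity)
      rw [← exp_nat_mul]; congr 1; push_cast; field_simp)) s fun m hm => by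
      rw [hs, mem_erase, mem_Icc, ← abs_le] at hm
      have := Int.one_le_abs hm.1
      have h : 2 * |m| ≤ n := by omega
      exact ⟨by exact_mod_cast this, by exact_mod_cast h⟩
  refine ⟨_, q, h8, fun k h h' => h9 k (by rw [hs, mem_erase, mem_Icc, ← abs_le]; exact ⟨by omega, h'⟩),
    fun u g w g0 h => ?_⟩
  have h12 : g ≤ w := by simpa using h 0
  have w0 := g0.trans h12
  rw [← hc] at h10 h11
  rw [div_le_iff₀ hε] at h3 h4
  rcases le_total ((n : ℝ)⁻¹ * (1 + 7 * c)) (1 + cos (2 * π * u)) with h13 | h13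
  · refine mul_le_mul ((h11 u h13).trans ((mul_le_mul_of_nonneg_left (mul_le_mul_of_nonneg_left
      (pow_exp (half_pos n0) (c + 3)) (by positivity)) (by positivity)).trans ?_)) h12 g0 hε.le
    refine le_of_mul_le_mul_left (le_of_eq_of_le ?_ h3) n0
    rw [inv_div, div_pow]
    field_simp
    ring
  · refine (mul_le_mul (h10 u) ((h (c + 3)).trans (mul_le_mul_of_nonneg_right
      (mul_le_mul_of_nonneg_left (pow_le_pow_left₀ (by linarith [neg_one_le_cos (2 * π * u)]) h13 _)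
      (by positivity)) w0)) g0 (by positivity)).trans ?_
    rw [← mul_assoc]
    refine mul_le_mul_of_nonneg_right (le_of_mul_le_mul_left (le_of_eq_of_le ?_ h4) n0) w0
    rw [mul_pow, inv_pow]
    field_simp
    ring

theorem uniq : ∃ L : Set ℝ, L.Countable ∧ (∀ x ∈ L, ∀ y ∈ L, x ≠ y → 1 ≤ |x - y|) ∧
    ∀ (Ω : Type) [MeasurableSpace Ω] (ν : Measure Ω) (G : Ω → ℂ) (u W : Ω → ℝ) (β : ℚ),
      Measurable u → Integrable G ν → Integrable W ν →
      (∀ m y, ‖G y‖ ≤ (2 * m)! * (1 + cos (2 * π * u y)) ^ m * W y) →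
      (∀ n : ℤ, (β : ℝ) + n ∈ L → ∫ y, G y * ee (n * u y) ∂ν = 0) → ∫ y, G y ∂ν = 0 := by
  obtain ⟨e, he⟩ := exists_surjective_nat ℚ
  choose N q h1 h2 h3 using fun a k : ℕ => core a (Nat.one_div_pos_of_nat (α := ℝ) (n := k))
  let b : ℕ → ℝ := fun k => e k.unpair.1
  obtain ⟨r, r1⟩ : ∃ r : ℕ → ℕ, ∀ k, r (k + 1) = r k + N (r k + ⌈|b k|⌉₊) k + ⌈|b k|⌉₊ :=
    ⟨fun k => Nat.rec 0 (fun k r => r + N (r + ⌈|b k|⌉₊) k + ⌈|b k|⌉₊) k, fun k => rfl⟩
  have r2 : Monotone r := monotone_nat_of_le_succ fun k => by rw [r1]; omega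
  refine ⟨⋃ k, ⋃ n ∈ {n : ℤ | (r k + ⌈|b k|⌉₊ : ℕ) < |n| ∧ |n| ≤ N (r k + ⌈|b k|⌉₊) k}, {b k + n},
    Set.countable_iUnion fun k => (Set.to_countable _).biUnion fun _ _ => Set.countable_singleton _,
    ?_, fun Ω _ ν G u W β hu hG hW h4 h5 => ?_⟩
  · simp only [Set.mem_iUnion, Set.mem_singleton_iff, Set.mem_setOf_eq]
    have key : ∀ (k : ℕ) (n : ℤ), (r k + ⌈|b k|⌉₊ : ℕ) < |n| ∧ |n| ≤ N (r k + ⌈|b k|⌉₊) k →
        ((r k : ℕ) : ℝ) + 1 ≤ |b k + (n : ℝ)| ∧ |b k + (n : ℝ)| ≤ ((r (k + 1) : ℕ) : ℝ) := fun k n h => by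
      have h1 : (r k : ℝ) + ⌈|b k|⌉₊ + 1 ≤ |(n : ℝ)| := by exact_mod_cast h.1
      have h2 : |(n : ℝ)| ≤ N (r k + ⌈|b k|⌉₊) k := by exact_mod_cast h.2
      have h3 := Nat.le_ceil |b k|
      have h4 := abs_add_le (b k) n
      have h5 := abs_sub (b k + n) (b k)
      rw [add_sub_cancel_left] at h5
      rw [r1]
      push_cast
      constructor <;> linarith [Nat.cast_nonneg (α := ℝ) (r k)]
    rintro _ ⟨k, n, hn, rfl⟩ _ ⟨l, m, hm, rfl⟩ h
    rcases lt_trichotomy k l with h' | rfl | h'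
    · have : (r (k + 1) : ℝ) ≤ r l := by exact_mod_cast r2 h'
      linarith [(key k n hn).2, (key l m hm).1, abs_sub_abs_le_abs_sub (b l + m) (b k + n),
        abs_sub_comm (b l + m) (b k + n)]
    · rw [add_sub_add_left_eq_sub]
      exact_mod_cast Int.one_le_abs (sub_ne_zero.2 fun h' => h (by rw [h']))
    · have : (r (l + 1) : ℝ) ≤ r k := by exact_mod_cast r2 h'
      linarith [(key k n hn).1, (key l m hm).2, abs_sub_abs_le_abs_sub (b k + n) (b l + m)]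
  obtain ⟨i, rfl⟩ := he β
  have h6 : ∀ n : ℤ, Integrable (fun y => G y * ee (n * u y)) ν := fun n =>
    hG.mul_bdd (c := 1) (ee_cont.measurable.comp (hu.const_mul _)).aestronglyMeasurable (by simp)
  have h7 : ∀ j : ℕ, ‖∫ y, G y ∂ν‖ ≤ 1 / (j + 1 : ℝ) * ∫ y, W y ∂ν := fun j => by
    obtain ⟨k, hk⟩ : ∃ k, k = Nat.pair i j := ⟨_, rfl⟩
    obtain ⟨a, ha⟩ : ∃ a, a = r k + ⌈|b k|⌉₊ := ⟨_, rfl⟩
    have h7 : ∫ y, tp (N a k) (q a k) (u y) * G y ∂ν = ∫ y, G y ∂ν := by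
      simp only [tp, sum_mul, mul_assoc, mul_comm (ee _)]
      rw [integral_finset_sum _ fun l _ => (h6 _).const_mul _, sum_eq_single_of_mem (N a k)
        (mem_range.2 (by omega)) fun l hl h => ?_]
      · simp [h1]
      rw [integral_const_mul]
      rcases le_or_gt |(l - N a k : ℤ)| a with h' | h'
      · rw [h2 a k l h h', zero_mul]
      · rw [h5 _ (Set.mem_iUnion.2 ⟨k, Set.mem_biUnion (x := (l - N a k : ℤ)) ⟨ha ▸ h', by
          rw [← ha, abs_le]; have := mem_range.1 hl; omega⟩ (by simp [b, hk])⟩), mul_zero]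
    have h8 : 0 ≤ ∫ y, W y ∂ν := integral_nonneg fun y => by simpa using (norm_nonneg _).trans (h4 0 y)
    rw [← h7]
    refine (norm_integral_le_of_norm_le (hW.const_mul _) (Eventually.of_forall fun y => by
      rw [norm_mul]; exact h3 a k _ _ _ (norm_nonneg _) fun m => h4 m y)).trans ?_
    rw [integral_const_mul]
    gcongr
    exact hk ▸ Nat.right_le_pair i j
  exact norm_le_zero_iff.1 (ge_of_tendsto' (by simpa using
    (tendsto_one_div_add_atTop_nhds_zero_nat (𝕜 := ℝ)).mul_const (∫ y, W y ∂ν)) h7)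

end Pool.Agent.H.MP_4928aa_an
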