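import Pool.Agent.H.MP_4928aa_an.A

namespace Pool.Agent.H.MP_4928aa_an

open Real Filter Topology MeasureTheory Set
open scoped Nat FourierTransform ComplexConjugate Convolution

/-- Fourier transform -/
noncomputable def ft (F : ℝ → ℂ) (w : ℝ) : ℂ := ∫ t, F t * ee (-(w * t))

lemma ft_eq (F : ℝ → ℂ) : ft F = 𝓕 F := by
  funext w
  rw [Real.fourier_real_eq_integral_exp_smul, ft]
  refine integral_congr_ae (ae_of_all _ fun t => ?_)
  simp only [ee, smul_eq_mul]
  rw [mul_comm]; congr 2; push_cast; ring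

lemma ft_cont {F : ℝ → ℂ} (h : Integrable F) : Continuous (ft F) := by
  rw [ft_eq]
  exact VectorFourier.fourierIntegral_continuous (L := innerₗ ℝ) Real.continuous_fourierChar
    continuous_inner h

lemma int_ee {Ω : Type} [MeasurableSpace Ω] {ν : Measure Ω} {F : Ω → ℂ} (h : Integrable F ν)
    {u : Ω → ℝ} (hu : Measurable u) : Integrable (fun y => F y * ee (u y)) ν :=
  h.mul_bdd (c := 1) (ee_cont.measurable.comp hu).aestronglyMeasurable (ae_of_all _ fun y => by simp)

lemma ft_sub {F G : ℝ → ℂ} (hF : Integrable F) (hG : Integrable G) (w : ℝ) :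
    ft (fun t => F t - G t) w = ft F w - ft G w := by
  simp only [ft, sub_mul]
  exact integral_sub (int_ee hF (by fun_prop)) (int_ee hG (by fun_prop))

lemma conj_ft (G : ℝ → ℂ) (w : ℝ) : conj (ft G w) = ∫ t, conj (G t) * ee (w * t) := by
  rw [ft, ← integral_conj]; simp [conj_ee]

/-- correlation -/
noncomputable def cor (F G : ℝ → ℂ) (u : ℝ) : ℂ := ∫ t, F t * conj (G (t - u))

lemma cor_eq (F G : ℝ → ℂ) :
    cor F G = F ⋆[ContinuousLinearMap.mul ℂ ℂ] fun s => conj (G (-s)) := by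
  funext u; simp [cor, convolution_def]

lemma int_conj {Ω : Type} [MeasurableSpace Ω] {ν : Measure Ω} {G : Ω → ℂ} (h : Integrable G ν) :
    Integrable (fun s => conj (G s)) ν :=
  (Complex.conjCLE : ℂ →L[ℝ] ℂ).integrable_comp h

lemma cor_int {F G : ℝ → ℂ} (hF : Integrable F) (hG : Integrable G) : Integrable (cor F G) := by
  rw [cor_eq]; exact hF.integrable_convolution _ (int_conj hG.comp_neg)

lemma ft_cor {F G : ℝ → ℂ} (hF : Integrable F) (hG : Integrable G) (w : ℝ) :
    ft (cor F G) w = ft F w * conj (ft G w) := by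
  rw [cor_eq, ft_eq, Real.fourier_mul_convolution_eq hF (int_conj hG.comp_neg), ← ft_eq, ← ft_eq,
    conj_ft]
  congr 1
  rw [ft, ← integral_neg_eq_self]
  simp

lemma FU {F : ℝ → ℂ} (hF : Integrable F) (h : ∀ w, ft F w = 0) : F =ᵐ[volume] 0 := by
  refine ae_eq_zero_of_integral_contDiff_smul_eq_zero hF.locallyIntegrable fun g hg hc => ?_
  have hg' : ContDiff ℝ (⊤ : ℕ∞) fun x => (g x : ℂ) := Complex.ofRealCLM.contDiff.comp hg
  have hc' : HasCompactSupport fun x => (g x : ℂ) := hc.comp_left (g := Complex.ofReal) rfl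
  set G := hc'.toSchwartzMap hg'
  have h1 := VectorFourier.integral_fourierIntegral_smul_eq_flip (L := innerₗ ℝ) (μ := volume)
    (ν := volume) Real.continuous_fourierChar continuous_inner (𝓕⁻ G).integrable hF
  have h2 : VectorFourier.fourierIntegral 𝐞 volume (innerₗ ℝ) (𝓕⁻ G : SchwartzMap ℝ ℂ) = G := by
    have := congrArg DFunLike.coe (FourierTransform.fourier_fourierInv_eq (F := SchwartzMap ℝ ℂ) G)
    rw [SchwartzMap.fourier_coe] at this
    exact this
  have h3 : VectorFourier.fourierIntegral 𝐞 volume (innerₗ ℝ).flip F = 0 := by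
    rw [flip_innerₗ]; funext w; have := h w; rw [ft_eq] at this; exact this
  rw [h2, h3] at h1
  simpa [G] using h1

lemma pars {G : ℝ → ℂ} (hG : Measurable G) {C : ℝ} (hC : ∀ x, ‖G x‖ ≤ C)
    (h0 : ∀ x ∉ Ioc (-1 / 2 : ℝ) (1 / 2), G x = 0) :
    HasSum (fun n : ℤ => ‖ft G n‖ ^ 2) (∫ x in Ioc (-1 / 2 : ℝ) (1 / 2), ‖G x‖ ^ 2) := by
  have hab : (-1 / 2 : ℝ) < 1 / 2 := by norm_num
  have := hasSum_sq_fourierCoeffOn hab (f := G)
    (MemLp.of_bound hG.aestronglyMeasurable C (ae_of_all _ hC))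
  have h1 : (1 / 2 - -1 / 2 : ℝ) = 1 := by norm_num
  convert this using 1
  · funext n
    rw [fourierCoeffOn_eq_integral, intervalIntegral.integral_of_le hab.le, ft,
      ← setIntegral_eq_integral_of_forall_compl_eq_zero (s := Ioc (-1 / 2 : ℝ) (1 / 2))
        (fun x hx => by rw [h0 x hx, zero_mul])]
    simp only [fourier_coe_apply, h1, ee]
    simp only [div_one, one_smul, smul_eq_mul, Complex.ofReal_one]
    congr 3; funext x; rw [mul_comm]; congr 2; push_cast; ring
  · rw [h1, intervalIntegral.integral_of_le hab.le]; simp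

/-- one-sided bump -/
noncomputable def ph (s : ℝ) : ℝ := if 0 ≤ s then expNegInvGlue (1 / 2 - s) else 0

lemma E_le (x : ℝ) : expNegInvGlue x ≤ 1 := by
  unfold expNegInvGlue; split_ifs with h
  · norm_num
  · exact exp_le_one_iff.2 (by simpa using (not_le.1 h).le)

lemma ph_nonneg (s : ℝ) : 0 ≤ ph s := by
  unfold ph; split_ifs; exacts [expNegInvGlue.nonneg _, le_rfl]

lemma ph_le (s : ℝ) : ph s ≤ 1 := by
  unfold ph; split_ifs; exacts [E_le _, zero_le_one]

lemma ph_neg {s : ℝ} (h : s < 0) : ph s = 0 := if_neg h.not_ge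

lemma ph_big {s : ℝ} (h : 1 / 2 ≤ s) : ph s = 0 := by
  unfold ph; split_ifs; exacts [expNegInvGlue.zero_of_nonpos (by linarith), rfl]

lemma E_cont : Continuous expNegInvGlue := (expNegInvGlue.contDiff (n := 0)).continuous

@[fun_prop] lemma ph_meas : Measurable ph :=
  Measurable.ite measurableSet_Ici (E_cont.measurable.comp (by fun_prop)) measurable_const

lemma ph_contAt {s : ℝ} (h : s ≠ 0) : ContinuousAt ph s := by
  rcases h.lt_or_gt with h | h
  · exact continuousAt_const.congr ((eventually_lt_nhds h).mono fun x hx => (ph_neg hx).symm)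
  · exact (E_cont.comp (continuous_const.sub continuous_id)).continuousAt.congr
      ((eventually_gt_nhds h).mono fun x hx => (if_pos hx.le).symm)

lemma ph_cases (s : ℝ) : ph s = 0 ∨ 0 ≤ s ∧ s < 1 / 2 := by
  rcases lt_or_ge s 0 with h | h
  · exact .inl (ph_neg h)
  rcases lt_or_ge s (1 / 2) with h' | h'
  · exact .inr ⟨h, h'⟩
  · exact .inl (ph_big h')

lemma E_deep {d : ℝ} (h0 : 0 < d) (h1 : d ≤ 1 / 2) (m : ℕ) :
    expNegInvGlue d ≤ (2 * m)! * (1 - cos (2 * π * d)) ^ m := by
  have hπ := pi_pos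
  have h2 : d ^ 2 ≤ 1 - cos (2 * π * d) := by
    have := cos_le_one_sub_mul_cos_sq (x := 2 * π * d) (by rw [abs_of_pos (by positivity)]; nlinarith)
    have h3 : 2 / π ^ 2 * (2 * π * d) ^ 2 = 8 * d ^ 2 := by field_simp; ring
    nlinarith
  rw [expNegInvGlue, if_neg h0.not_ge]
  refine (pow_exp (inv_pos.2 h0) (2 * m)).trans ?_
  rw [inv_inv, pow_mul]
  gcongr

lemma deep (a b : ℝ) (m : ℕ) : ph a * ph b ≤ (2 * m)! * (1 + cos (2 * π * (a - b))) ^ m := by
  have h0 : (0 : ℝ) ≤ (2 * m)! * (1 + cos (2 * π * (a - b))) ^ m :=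
    mul_nonneg (by positivity) (pow_nonneg (by linarith [neg_one_le_cos (2 * π * (a - b))]) _)
  rcases ph_cases a with h | ⟨h1, h2⟩
  · rwa [h, zero_mul]
  rcases ph_cases b with h | ⟨h3, h4⟩
  · rwa [h, mul_zero]
  rcases le_total a b with h | h
  · have := E_deep (d := 1 / 2 + (a - b)) (by linarith) (by linarith) m
    rw [show 2 * π * (1 / 2 + (a - b)) = 2 * π * (a - b) + π by ring, cos_add_pi, sub_neg_eq_add]
      at this
    refine le_trans ?_ this
    refine (mul_le_of_le_one_left (ph_nonneg _) (ph_le _)).trans ?_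
    rw [ph, if_pos h3]; exact expNegInvGlue.monotone (by linarith)
  · have := E_deep (d := 1 / 2 - (a - b)) (by linarith) (by linarith) m
    rw [show 2 * π * (1 / 2 - (a - b)) = π - 2 * π * (a - b) by ring, cos_pi_sub, sub_neg_eq_add]
      at this
    refine le_trans ?_ this
    refine (mul_le_of_le_one_right (ph_nonneg _) (ph_le _)).trans ?_
    rw [ph, if_pos h1]; exact expNegInvGlue.monotone (by linarith)

end Pool.Agent.H.MP_4928aa_an
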