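import Pool.Agent.H.MP_4928aa_an.B

namespace Pool.Agent.H.MP_4928aa_an

open Real Filter Topology MeasureTheory Set
open scoped Nat ComplexConjugate

lemma E_der (x : ℝ) : HasDerivAt expNegInvGlue (x⁻¹ ^ 2 * expNegInvGlue x) x := by
  simpa using expNegInvGlue.hasDerivAt_polynomial_eval_inv_mul 1 x

lemma D_cont : Continuous fun x : ℝ => x⁻¹ ^ 2 * expNegInvGlue x := by
  refine (expNegInvGlue.continuous_polynomial_eval_inv_mul (Polynomial.X ^ 2)).congr fun x => ?_
  rw [Polynomial.eval_pow, Polynomial.eval_X]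

lemma NZ {r q : ℝ} (h1 : 0 < r) (h1' : r ≤ 1) (h2 : 0 < q) (a : ℝ) :
    ∫ v in (0 : ℝ)..1, ((expNegInvGlue (r - v) * expNegInvGlue (q - v) : ℝ) : ℂ) * ee (a * v) ≠ 0 := by
  intro h
  have hE := E_cont
  have hD := D_cont
  have hi : IntervalIntegrable (fun v : ℝ =>
      ((expNegInvGlue (r - v) * expNegInvGlue (q - v) : ℝ) : ℂ) * ee (a * v)) volume 0 1 :=
    Continuous.intervalIntegrable (by fun_prop) _ _
  have hn := expNegInvGlue.nonneg
  by_cases ha : a = 0
  · subst ha
    simp only [zero_mul, ee_zero, mul_one, intervalIntegral.integral_ofReal,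
      Complex.ofReal_eq_zero] at h
    refine (intervalIntegral.integral_pos one_pos (by fun_prop)
      (fun x _ => mul_nonneg (hn _) (hn _)) ⟨0, by simp, ?_⟩).ne' h
    exact mul_pos (expNegInvGlue.pos_of_pos (by linarith)) (expNegInvGlue.pos_of_pos (by linarith))
  have h3 := Complex.imCLM.intervalIntegral_comp_comm hi
  rw [h] at h3
  simp only [Complex.imCLM_apply, ee, Complex.im_ofReal_mul, Complex.exp_ofReal_mul_I_im,
    Complex.zero_im] at h3
  set b := 2 * π * a with hb
  have hb0 : b ≠ 0 := by have := pi_pos; positivity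
  simp only [show ∀ v, 2 * π * (a * v) = b * v from fun v => by rw [hb]; ring] at h3
  set D : ℝ → ℝ := fun x => x⁻¹ ^ 2 * expNegInvGlue x
  set P : ℝ → ℝ := fun v => (D (r - v) * expNegInvGlue (q - v) + expNegInvGlue (r - v) * D (q - v))
    * (1 - cos (b * v))
  have hP : Continuous P := by fun_prop
  have h4 : ∀ v, HasDerivAt
      (fun v => expNegInvGlue (r - v) * expNegInvGlue (q - v) * (1 - cos (b * v)))
      (b * (expNegInvGlue (r - v) * expNegInvGlue (q - v) * sin (b * v)) - P v) v := by
    intro v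
    have e1 := (E_der (r - v)).comp v ((hasDerivAt_id v).const_sub r)
    have e2 := (E_der (q - v)).comp v ((hasDerivAt_id v).const_sub q)
    have e3 := (((hasDerivAt_id v).const_mul b).cos).const_sub 1
    refine ((e1.mul e2).mul e3).congr_deriv ?_
    simp [P, D]; ring
  have h5 := intervalIntegral.integral_eq_sub_of_hasDerivAt (a := 0) (b := 1)
    (fun v _ => h4 v) (Continuous.intervalIntegrable (by fun_prop) _ _)
  rw [intervalIntegral.integral_sub (Continuous.intervalIntegrable (by fun_prop) _ _)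
    (hP.intervalIntegrable _ _), intervalIntegral.integral_const_mul, h3,
    expNegInvGlue.zero_of_nonpos (x := r - 1) (by linarith)] at h5
  have hD0 : ∀ x, 0 ≤ D x := fun x => mul_nonneg (sq_nonneg _) (hn _)
  have h6 : 0 < ∫ v in (0 : ℝ)..1, P v := by
    refine intervalIntegral.integral_pos one_pos hP.continuousOn (fun x _ => mul_nonneg
      (add_nonneg (mul_nonneg (hD0 _) (hn _)) (mul_nonneg (hn _) (hD0 _)))
      (by linarith [cos_le_one (b * x)])) ?_
    set s := min (min r q / 2) (1 / |b|)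
    have hb1 : 0 < |b| := abs_pos.2 hb0
    have s0 : 0 < s := by positivity
    have s1 : s ≤ min r q / 2 := min_le_left _ _
    have s2 : s * |b| ≤ 1 := (le_div_iff₀ hb1).1 (min_le_right _ _)
    have s3 := min_le_left r q
    have s4 := min_le_right r q
    refine ⟨s, ⟨s0.le, by linarith⟩, mul_pos (add_pos_of_pos_of_nonneg (mul_pos (mul_pos ?_ ?_) ?_)
      (mul_nonneg (hn _) (hD0 _))) ?_⟩
    · have : 0 < r - s := by linarith
      positivity
    · exact expNegInvGlue.pos_of_pos (by linarith)
    · exact expNegInvGlue.pos_of_pos (by linarith)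
    have s5 : |b * s| ≤ 1 := by rw [abs_mul, abs_of_pos s0]; linarith
    have := pi_gt_three
    rw [sub_pos]
    refine lt_of_le_of_ne (cos_le_one _) fun e => ?_
    rw [cos_eq_one_iff_of_lt_of_lt (by linarith [(abs_le.1 s5).1]) (by linarith [(abs_le.1 s5).2])]
      at e
    exact mul_ne_zero hb0 s0.ne' e
  simp at h5
  linarith

/-- complex bump -/
noncomputable def pc (s : ℝ) : ℂ := ph s

@[fun_prop] lemma pc_meas : Measurable pc := by unfold pc; fun_prop

@[simp] lemma conj_pc (s : ℝ) : conj (pc s) = pc s := Complex.conj_ofReal _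

@[simp] lemma norm_pc (s : ℝ) : ‖pc s‖ = ph s := by
  rw [pc, Complex.norm_real, norm_of_nonneg (ph_nonneg _)]

lemma ph_ind (s : ℝ) : ph s ≤ (Icc (0 : ℝ) 1).indicator 1 s := by
  rcases ph_cases s with h | h
  · rw [h]; exact indicator_nonneg (by simp) _
  · rw [indicator_of_mem (show s ∈ Icc (0 : ℝ) 1 from ⟨h.1, by linarith⟩)]; exact ph_le _

lemma ind_int : Integrable ((Icc (0 : ℝ) 1).indicator (1 : ℝ → ℝ)) :=
  (integrable_indicator_iff measurableSet_Icc).2 (integrableOn_const (by simp))

lemma pc_int : Integrable pc :=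
  ind_int.mono' pc_meas.aestronglyMeasurable (ae_of_all _ fun s => by simpa using ph_ind s)

/-- ambiguity function of the bump -/
noncomputable def Am (a : ℝ) : ℝ → ℂ := cor (fun s => pc s * ee (a * s)) pc

lemma Am_int (a : ℝ) : Integrable (Am a) := cor_int (int_ee pc_int (by fun_prop)) pc_int

lemma Am_meas (a : ℝ) : Measurable (Am a) := by
  refine (StronglyMeasurable.integral_prod_right (f := fun u t => pc t * ee (a * t) * conj (pc (t - u)))
    (Measurable.stronglyMeasurable ?_)).measurable
  simp only [conj_pc]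
  have := ee_cont.measurable
  exact ((pc_meas.comp measurable_snd).mul (this.comp (measurable_snd.const_mul a))).mul
    (pc_meas.comp (measurable_snd.sub measurable_fst))

lemma Am_le (a u C : ℝ) (h : ∀ s, ph s * ph (s - u) ≤ C) : ‖Am a u‖ ≤ C := by
  have h0 : 0 ≤ C := (mul_nonneg (ph_nonneg 0) (ph_nonneg _)).trans (h 0)
  refine (norm_integral_le_of_norm_le (ind_int.const_mul C) (ae_of_all _ fun s => ?_)).trans ?_
  · simp only [norm_mul, norm_ee, conj_pc, norm_pc, mul_one]
    rcases ph_cases s with e | e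
    · rw [e, zero_mul]; exact mul_nonneg h0 (indicator_nonneg (by simp) _)
    · rw [indicator_of_mem (show s ∈ Icc (0 : ℝ) 1 from ⟨e.1, by linarith⟩)]; simpa using h s
  · rw [integral_const_mul, integral_indicator measurableSet_Icc]; simp

lemma Am_deep (a u : ℝ) (m : ℕ) : ‖Am a u‖ ≤ (2 * m)! * (1 + cos (2 * π * u)) ^ m :=
  Am_le _ _ _ fun s => by simpa using deep s (s - u) m

lemma Am_zero (a : ℝ) {u : ℝ} (h : u ∉ Ioc (-1 / 2 : ℝ) (1 / 2)) : Am a u = 0 := by
  refine norm_le_zero_iff.1 (Am_le _ _ _ fun s => ?_)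
  rcases ph_cases s with e | e
  · simp [e]
  rcases ph_cases (s - u) with e' | e'
  · simp [e']
  exact absurd ⟨by linarith, by linarith⟩ h

lemma Am_ne (a : ℝ) {u : ℝ} (h : |u| < 1 / 2) : Am a u ≠ 0 := by
  obtain ⟨h1, h2⟩ := abs_lt.1 h
  set p := max 0 u
  have p1 : 0 ≤ p := le_max_left _ _
  have p2 : u ≤ p := le_max_right _ _
  have p3 : p = 0 ∨ p = u := max_choice _ _
  have := NZ (r := 1 / 2 - p) (q := 1 / 2 + u - p) (by rcases p3 with e | e <;> linarith)
    (by linarith) (by rcases p3 with e | e <;> linarith) a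
  refine fun e => mul_ne_zero (ee_ne (a * p)) this ?_
  rw [Am, cor, ← integral_add_right_eq_self _ p,
    ← setIntegral_eq_integral_of_forall_compl_eq_zero (s := Icc (0 : ℝ) 1)] at e
  · rw [← e, intervalIntegral.integral_of_le zero_le_one,
      ← integral_Icc_eq_integral_Ioc, ← integral_const_mul]
    refine setIntegral_congr_fun measurableSet_Icc fun v hv => ?_
    simp only [conj_pc, pc, ph, Complex.conj_ofReal]
    rw [if_pos (by linarith [hv.1]), if_pos (by linarith [hv.1]), mul_add, ee_add,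
      show 1 / 2 - p - v = 1 / 2 - (v + p) by ring,
      show 1 / 2 + u - p - v = 1 / 2 - (v + p - u) by ring]
    push_cast; ring
  · intro v hv
    simp only [pc]
    rcases ph_cases (v + p) with e | e
    · simp [e]
    rcases ph_cases (v + p - u) with e' | e'
    · simp [e']
    exact absurd ⟨by rcases p3 with e | e <;> linarith, by linarith⟩ hv

/-- coefficients -/
noncomputable def cc : ℝ → ℂ := ft pc

lemma ft_Am (a w : ℝ) : ft (Am a) w = cc (w - a) * conj (cc w) := by
  rw [Am, ft_cor (int_ee pc_int (by fun_prop)) pc_int, cc, ft, ft]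
  congr 2; funext s
  rw [mul_assoc, ← ee_add]; congr 2; ring

lemma cc_le (w : ℝ) : ‖cc w‖ ≤ 1 := by
  refine (norm_integral_le_of_norm_le ind_int (ae_of_all _ fun s => ?_)).trans ?_
  · simpa using ph_ind s
  · rw [integral_indicator measurableSet_Icc]; simp

lemma cc_sum : Summable fun n : ℤ => ‖cc n‖ ^ 2 :=
  (pars pc_meas (C := 1) (fun x => by simpa using ph_le x) fun x hx => by
    rcases ph_cases x with e | e
    · simp [pc, e]
    · exact absurd ⟨by linarith, by linarith⟩ hx).summable

/-- envelope -/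
noncomputable def env (t : ℝ) : ℂ := cc ⌊t⌋

@[fun_prop] lemma env_meas : Measurable env :=
  (measurable_from_top (f := fun n : ℤ => cc n)).comp Int.measurable_floor

lemma env_L2 : MemLp env 2 volume := by
  rw [memLp_two_iff_integrable_sq_norm env_meas.aestronglyMeasurable, ← integrableOn_univ,
    ← iUnion_Ico_add_intCast 0]
  have h : ∀ n : ℤ, EqOn (fun t => ‖env t‖ ^ 2) (fun _ => ‖cc n‖ ^ 2) (Ico (0 + n) (0 + n + 1)) :=
    fun n t ht => by
      have : ⌊t⌋ = n := Int.floor_eq_iff.2 ⟨by linarith [ht.1], by linarith [ht.2]⟩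
      simp [env, this]
  refine integrableOn_iUnion_of_summable_integral_norm (fun n => ?_) (cc_sum.congr fun n => ?_)
  · exact (integrableOn_congr_fun (h n) measurableSet_Ico).2 (integrableOn_const (by simp))
  · rw [setIntegral_congr_fun measurableSet_Ico (g := fun _ => ‖cc n‖ ^ 2)]
    · simp
    · intro t ht
      have := h n ht
      simp only at this ⊢
      rw [this]; simp

/-- the window -/
noncomputable def gg (t : ℝ) : ℂ := env t * pc (Int.fract t)

@[fun_prop] lemma gg_meas : Measurable gg := env_meas.mul (pc_meas.comp measurable_fract)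

lemma gg_le (t : ℝ) : ‖gg t‖ ≤ ‖env t‖ := by
  rw [gg, norm_mul, norm_pc]; exact mul_le_of_le_one_right (norm_nonneg _) (ph_le _)

lemma gg_L2 : MemLp gg 2 volume :=
  env_L2.of_le gg_meas.aestronglyMeasurable (ae_of_all _ gg_le)

lemma gg_deep (s t : ℝ) (m : ℕ) :
    ‖gg s‖ * ‖gg t‖ ≤ (2 * m)! * (1 + cos (2 * π * (s - t))) ^ m * (‖env s‖ * ‖env t‖) := by
  have := deep (Int.fract s) (Int.fract t) m
  rw [show 2 * π * (Int.fract s - Int.fract t) = 2 * π * (s - t) - ((⌊s⌋ - ⌊t⌋ : ℤ) : ℝ) * (2 * π) by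
    simp only [Int.fract]; push_cast; ring, cos_sub_int_mul_two_pi] at this
  simp only [gg, norm_mul, norm_pc]
  rw [mul_mul_mul_comm, mul_comm]
  exact mul_le_mul_of_nonneg_right this (by positivity)

lemma gid {t : ℝ} {i : ℤ} (h1 : -1 / 2 ≤ t - i) (h2 : t - i < 1) : gg t = cc i * pc (t - i) := by
  rcases lt_or_ge (t - i) 0 with h | h
  · have : ⌊t⌋ = i - 1 := Int.floor_eq_iff.2 ⟨by push_cast; linarith, by push_cast; linarith⟩
    rw [gg, pc, pc, ph_neg h, ph_big (by rw [Int.fract, this]; push_cast; linarith)]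
    simp
  · have : ⌊t⌋ = i := Int.floor_eq_iff.2 ⟨by linarith, by linarith⟩
    rw [gg, env, Int.fract, this]

end Pool.Agent.H.MP_4928aa_an
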