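import Pool.Agent.H.MP_4928aa_an.C

namespace Pool.Agent.H.MP_4928aa_an

open Real Filter Topology MeasureTheory Set
open scoped Nat ComplexConjugate

/-- the uniqueness property for functions with deep zeros -/
def UP (L : Set ℝ) : Prop :=
  ∀ (Ω : Type) [MeasurableSpace Ω] (ν : Measure Ω) (G : Ω → ℂ) (u W : Ω → ℝ) (β : ℚ),
    Measurable u → Integrable G ν → Integrable W ν →
    (∀ m y, ‖G y‖ ≤ (2 * m)! * (1 + cos (2 * π * u y)) ^ m * W y) →
    (∀ n : ℤ, (β : ℝ) + n ∈ L → ∫ y, G y * ee (n * u y) ∂ν = 0) → ∫ y, G y ∂ν = 0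

/-- windowed function -/
noncomputable def wf (f : ℝ → ℂ) (x t : ℝ) : ℂ := f t * conj (gg (t - x))

lemma env_int {f : ℝ → ℂ} (hf : MemLp f 2 volume) (x : ℝ) :
    Integrable fun t => ‖f t‖ * ‖env (t - x)‖ :=
  hf.norm.integrable_mul (env_L2.comp_measurePreserving (measurePreserving_sub_right volume x)).norm

lemma wf_int {f : ℝ → ℂ} (hf : MemLp f 2 volume) (x : ℝ) : Integrable (wf f x) := by
  refine (env_int hf x).mono' (hf.1.mul (Measurable.aestronglyMeasurable ?_)) (ae_of_all _ fun t => ?_)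
  · exact Complex.continuous_conj.measurable.comp (gg_meas.comp (measurable_sub_const x))
  · rw [wf, norm_mul, Complex.norm_conj]
    exact mul_le_mul_of_nonneg_left (gg_le _) (norm_nonneg _)

lemma sq_ft (F : ℝ → ℂ) (w : ℝ) : ∫ p : ℝ × ℝ, F p.1 * conj (F p.2) * ee (w * (p.2 - p.1))
    ∂(volume.prod volume) = ft F w * conj (ft F w) := by
  rw [conj_ft, ft, ← integral_prod_mul]
  congr 1; funext p
  rw [show w * (p.2 - p.1) = -(w * p.1) + w * p.2 by ring, ee_add]; ring

lemma stepW {L : Set ℝ} (hL : UP L) {f h : ℝ → ℂ} (hf : MemLp f 2 volume) (hh : MemLp h 2 volume)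
    (x : ℝ) (H : ∀ w ∈ L, ‖ft (wf f x) w‖ = ‖ft (wf h x) w‖) :
    cor (wf f x) (wf f x) =ᵐ[volume] cor (wf h x) (wf h x) := by
  have i1 := wf_int hf x
  have i2 := wf_int hh x
  have j1 := i1.mul_prod (int_conj i1)
  have j2 := i2.mul_prod (int_conj i2)
  have hu : Measurable fun p : ℝ × ℝ => p.2 - p.1 := by fun_prop
  have key : ∀ w, ∫ p : ℝ × ℝ, (wf f x p.1 * conj (wf f x p.2) - wf h x p.1 * conj (wf h x p.2)) *
      ee (w * (p.2 - p.1)) ∂(volume.prod volume) =
      ft (wf f x) w * conj (ft (wf f x) w) - ft (wf h x) w * conj (ft (wf h x) w) := by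
    intro w
    simp only [sub_mul]
    rw [integral_sub (int_ee j1 (hu.const_mul w)) (int_ee j2 (hu.const_mul w)), sq_ft, sq_ft]
  have bd : ∀ (f : ℝ → ℂ) (m : ℕ) (p : ℝ × ℝ), ‖wf f x p.1 * conj (wf f x p.2)‖ ≤
      (2 * m)! * (1 + cos (2 * π * (p.2 - p.1))) ^ m *
        ((‖f p.1‖ * ‖env (p.1 - x)‖) * (‖f p.2‖ * ‖env (p.2 - x)‖)) := by
    intro f m p
    have := gg_deep (p.2 - x) (p.1 - x) m
    rw [sub_sub_sub_cancel_right] at this
    simp only [wf, norm_mul, Complex.norm_conj]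
    nlinarith [mul_le_mul_of_nonneg_left this (mul_nonneg (norm_nonneg (f p.1)) (norm_nonneg (f p.2)))]
  have h1 : ∀ β : ℚ, ft (wf f x) β * conj (ft (wf f x) β) - ft (wf h x) β * conj (ft (wf h x) β) = 0 := by
    intro β
    rw [← key]
    refine hL _ _ _ _ _ β hu (int_ee (j1.sub j2) (hu.const_mul _))
      (((env_int hf x).mul_prod (env_int hf x)).add ((env_int hh x).mul_prod (env_int hh x)))
      (fun m p => ?_) fun n hn => ?_
    · rw [norm_mul, norm_ee, mul_one, Pi.add_apply, mul_add]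
      exact (norm_sub_le _ _).trans (add_le_add (bd f m p) (bd h m p))
    · simp only [mul_assoc, ← ee_add, ← add_mul]
      rw [key, Complex.mul_conj', Complex.mul_conj', H _ hn, sub_self]
  have c1 := ft_cont i1
  have c2 := ft_cont i2
  have h2 := Rat.denseRange_cast.equalizer (g := fun w => ft (wf f x) w * conj (ft (wf f x) w) -
    ft (wf h x) w * conj (ft (wf h x) w)) (h := fun _ => 0) (by fun_prop) continuous_const
    (funext h1)
  filter_upwards [FU ((cor_int i1 i1).sub (cor_int i2 i2)) fun w => by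
    rw [Pi.sub_def, ft_sub (cor_int i1 i1) (cor_int i2 i2), ft_cor i1 i1, ft_cor i2 i2]
    exact congrFun h2 w] with u hu
  exact sub_eq_zero.1 hu

lemma ser {R : ℤ → ℂ} (hR : Summable fun m => ‖R m‖) {A : ℝ → ℂ} (hA : Integrable A) (n : ℤ) :
    HasSum (fun m => ft A ((m - n : ℤ) : ℝ) * R m)
      (∫ τ, A τ * (∑' m, R m * ee (-(m * τ))) * ee (n * τ)) := by
  have := hasSum_integral_of_summable_integral_norm (μ := volume)
    (F := fun (m : ℤ) τ => A τ * ee (-(((m - n : ℤ) : ℝ) * τ)) * R m)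
    (fun m => (int_ee hA (by fun_prop)).mul_const _)
    ((hR.mul_left (∫ τ, ‖A τ‖)).congr fun m => by simp [integral_mul_const])
  simp only [integral_mul_const] at this
  have e : ∀ τ, A τ * (∑' m, R m * ee (-(m * τ))) * ee (n * τ) =
      ∑' m : ℤ, A τ * ee (-(((m - n : ℤ) : ℝ) * τ)) * R m := by
    intro τ
    rw [← tsum_mul_left, ← tsum_mul_right]
    congr 1; funext m
    rw [show -(((m - n : ℤ) : ℝ) * τ) = -(m * τ) + n * τ by push_cast; ring, ee_add]; ring
  simp only [e]
  exact this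

lemma ft_ind {m : ℤ} (hm : m ≠ 0) :
    ft ((Ioc (-1 / 2 : ℝ) (1 / 2)).indicator fun _ => 1) m = 0 := by
  have hc : (-m : ℤ) * (2 * π * Complex.I) ≠ 0 :=
    mul_ne_zero (by simpa using hm) Complex.two_pi_I_ne_zero
  have := integral_exp_mul_complex (a := -1 / 2) (b := 1 / 2) hc
  rw [show ((-m : ℤ) * (2 * π * Complex.I)) * ((1 / 2 : ℝ) : ℂ) =
    ((-m : ℤ) * (2 * π * Complex.I)) * ((-1 / 2 : ℝ) : ℂ) + (-m : ℤ) * (2 * π * Complex.I) by
      push_cast; ring, Complex.exp_add, Complex.exp_int_mul_two_pi_mul_I, mul_one, sub_self,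
    zero_div, intervalIntegral.integral_of_le (by norm_num), ← integral_indicator measurableSet_Ioc]
    at this
  rw [← this, ft]
  congr 1; funext t
  rw [← indicator_mul_left _ _ fun t => ee (-(m * t))]
  congr 1; funext t
  rw [one_mul, ee]; congr 1; push_cast; ring

lemma deconv {L : Set ℝ} (hL : UP L) {R : ℤ → ℂ} (hR : Summable fun m => ‖R m‖) (a : ℝ) (β : ℚ)
    (H : ∀ n : ℤ, (β : ℝ) + n ∈ L → HasSum (fun m => ft (Am a) ((m - n : ℤ) : ℝ) * R m) 0) :
    R 0 = 0 := by
  set Rh : ℝ → ℂ := fun τ => ∑' m, R m * ee (-(m * τ))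
  have c1 : Continuous Rh := continuous_tsum (fun m => by fun_prop) hR fun m τ => by simp
  have b1 : ∀ τ, ‖Rh τ‖ ≤ ∑' m, ‖R m‖ := fun τ =>
    tsum_of_norm_bounded hR.hasSum fun m => by simp
  have i1 : Integrable fun τ => Am a τ * Rh τ :=
    (Am_int a).mul_bdd c1.aestronglyMeasurable (ae_of_all _ b1)
  have iI : ∀ {E : Type} [NormedAddCommGroup E] (C : E),
      Integrable ((Ioc (-1 / 2 : ℝ) (1 / 2)).indicator fun _ => C) := fun C =>
    (integrable_indicator_iff measurableSet_Ioc).2 (integrableOn_const (by simp))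
  have h1 : ∀ n : ℤ, ft (fun τ => Am a τ * Rh τ) n = 0 := by
    intro n
    refine hL _ _ _ id _ (β - n) measurable_id (int_ee i1 (by fun_prop)) (iI (∑' m, ‖R m‖))
      (fun m τ => ?_) fun j hj => ?_
    · by_cases hτ : τ ∈ Ioc (-1 / 2 : ℝ) (1 / 2)
      · rw [indicator_of_mem hτ, norm_mul, norm_ee, mul_one, norm_mul]
        exact mul_le_mul (Am_deep a τ m) (b1 τ) (norm_nonneg _) ((norm_nonneg _).trans (Am_deep a τ m))
      · rw [indicator_of_notMem hτ]; simp [Am_zero a hτ]
    · rw [← (ser hR (Am_int a) (j - n)).unique (H _ (by convert hj using 1; push_cast; ring))]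
      congr 1; funext τ
      rw [mul_assoc, ← ee_add]; congr 2; simp; ring
  have h2 := pars (G := fun τ => Am a τ * Rh τ) ((Am_meas a).mul c1.measurable)
    (C := ∑' m, ‖R m‖) (fun τ => by
      rw [norm_mul]
      exact (mul_le_of_le_one_left (norm_nonneg _) (by simpa using Am_deep a τ 0)).trans (b1 τ))
    fun τ hτ => by rw [Am_zero a hτ, zero_mul]
  simp only [h1, norm_zero, ne_eq, OfNat.ofNat_ne_zero, not_false_eq_true, zero_pow] at h2
  have h3 := h2.unique hasSum_zero
  rw [integral_eq_zero_iff_of_nonneg (fun τ => by positivity) ?_] at h3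
  · have h4 := ser hR (iI (1 : ℂ)) 0
    rw [integral_eq_zero_of_ae] at h4
    · have h5 := h4.unique (hasSum_single 0 fun m hm => by rw [sub_zero, ft_ind hm, zero_mul])
      simp only [ft, sub_zero, Int.cast_zero, zero_mul, neg_zero, ee_zero, mul_one,
        integral_indicator measurableSet_Ioc] at h5
      norm_num at h5
      exact h5.symm
    · filter_upwards [(ae_restrict_iff' measurableSet_Ioc).1 h3,
        Measure.ae_ne volume (1 / 2 : ℝ)] with τ e1 e2
      by_cases hτ : τ ∈ Ioc (-1 / 2 : ℝ) (1 / 2)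
      · have := e1 hτ
        simp only [Pi.zero_apply, ne_eq, OfNat.ofNat_ne_zero, not_false_eq_true, pow_eq_zero_iff,
          norm_eq_zero, mul_eq_zero] at this
        have e3 : Rh τ = 0 := this.resolve_left
          (Am_ne a (abs_lt.2 ⟨by linarith [hτ.1], hτ.2.lt_of_ne e2⟩))
        simp only [Rh] at e3
        simp [e3]
      · rw [indicator_of_notMem hτ]; simp
  · refine Integrable.of_bound (C := (∑' m, ‖R m‖) ^ 2) ?_ (ae_of_all _ fun τ => ?_)
    · exact (((Am_meas a).mul c1.measurable).norm.pow_const 2).aestronglyMeasurable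
    · rw [norm_pow, norm_norm, norm_mul]
      exact pow_le_pow_left₀ (by positivity) ((mul_le_of_le_one_left (norm_nonneg _)
        (by simpa using Am_deep a τ 0)).trans (b1 τ)) 2

end Pool.Agent.H.MP_4928aa_an
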