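import Pool.Agent.H.MP_4928aa_an.D

namespace Pool.Agent.H.MP_4928aa_an

open Real Filter Topology MeasureTheory Set
open scoped Nat ComplexConjugate

lemma stepX {L : Set ℝ} (hL : UP L) {k : ℝ → ℂ} (hk : Integrable k) (l : ℤ) {ξ : ℝ}
    (hξ : |ξ| < 1 / 2)
    (H : ∀ x ∈ L, ∫ t, k t * (conj (gg (t - x)) * gg (t - (l + ξ) - x)) = 0) : k =ᵐ[volume] 0 := by
  obtain ⟨x1, x2⟩ := abs_lt.1 hξ
  set P : ℝ → ℂ := fun s => pc s * pc (s - ξ) with hP
  have mP : Measurable P := pc_meas.mul (pc_meas.comp (measurable_sub_const ξ))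
  have bP : ∀ s, ‖P s‖ ≤ 1 := fun s => by
    simp only [hP, norm_mul, norm_pc]
    exact mul_le_one₀ (ph_le _) (ph_nonneg _) (ph_le _)
  have iP : Integrable P := pc_int.mul_bdd (c := 1)
    (pc_meas.comp (measurable_sub_const ξ)).aestronglyMeasurable
    (ae_of_all _ fun s => by simpa using ph_le _)
  have cP : ∀ s, conj (P s) = P s := fun s => by simp [hP]
  have eR : ∀ y, cor k P y = ∫ t in Ico y (y + 1), k t * P (t - y) := by
    intro y
    rw [setIntegral_eq_integral_of_forall_compl_eq_zero, cor]
    · simp only [cP]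
    · intro t ht
      rcases ph_cases (t - y) with e | e
      · simp [hP, pc, e]
      · exact absurd ⟨by linarith, by linarith⟩ ht
  have h1 : ∀ β : ℚ, cor k P β = 0 := by
    intro β
    have s1 := hasSum_integral_iUnion (μ := volume) (fun m : ℤ => measurableSet_Ico)
      (pairwise_disjoint_Ico_add_intCast (β : ℝ)) hk.norm.integrableOn
    have hR : Summable fun m : ℤ => ‖cor k P (β + m)‖ := by
      refine Summable.of_nonneg_of_le (fun _ => norm_nonneg _) (fun m => ?_) s1.summable
      rw [eR]
      refine norm_integral_le_of_norm_le hk.norm.integrableOn (ae_of_all _ fun t => ?_)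
      rw [norm_mul]; exact mul_le_of_le_one_right (norm_nonneg _) (bP _)
    have := deconv hL hR l β fun n hn => ?_
    · simpa using this
    have i1 : Integrable fun t => k t * (conj (gg (t - (β + n))) * gg (t - (l + ξ) - (β + n))) := by
      refine hk.mul_bdd (c := 1) (Measurable.aestronglyMeasurable ?_) (ae_of_all _ fun t => ?_)
      · exact (Complex.continuous_conj.measurable.comp (gg_meas.comp (measurable_sub_const _))).mul
          (gg_meas.comp ((measurable_sub_const _).sub_const _))
      · rw [norm_mul, Complex.norm_conj]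
        exact mul_le_one₀ ((gg_le _).trans (cc_le _)) (norm_nonneg _) ((gg_le _).trans (cc_le _))
    have s2 := hasSum_integral_iUnion (μ := volume) (fun m : ℤ => measurableSet_Ico)
      (pairwise_disjoint_Ico_add_intCast (β : ℝ)) i1.integrableOn
    rw [iUnion_Ico_add_intCast, setIntegral_univ, H _ hn] at s2
    refine s2.congr_fun ?_
    intro m
    rw [eR, ← integral_const_mul, ft_Am]
    refine setIntegral_congr_fun measurableSet_Ico fun t ht => ?_
    obtain ⟨t1, t2⟩ := ht
    have e1 := gid (t := t - (β + n)) (i := m - n) (by push_cast; linarith) (by push_cast; linarith)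
    rw [show t - (β + n) - ((m - n : ℤ) : ℝ) = t - (β + m) by push_cast; ring] at e1
    simp only [e1, hP, map_mul, conj_pc]
    rcases ph_cases (t - (β + m)) with e | e
    · simp [pc, e]
    have e2 := gid (t := t - (l + ξ) - (β + n)) (i := m - n - l) (by push_cast; linarith)
      (by push_cast; linarith)
    rw [show t - (l + ξ) - (β + n) - ((m - n - l : ℤ) : ℝ) = t - (β + m) - ξ by push_cast; ring] at e2
    rw [e2]; push_cast; ring
  have c1 : Continuous (cor k P) := by
    refine continuous_iff_continuousAt.2 fun y => continuousAt_of_dominated (bound := fun t => ‖k t‖)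
      (.of_forall fun y => hk.1.mul (Measurable.aestronglyMeasurable ?_))
      (.of_forall fun y => ae_of_all _ fun t => ?_) hk.norm ?_
    · exact Complex.continuous_conj.measurable.comp (mP.comp (measurable_sub_const _))
    · rw [norm_mul, cP]; exact mul_le_of_le_one_right (norm_nonneg _) (bP _)
    · filter_upwards [Measure.ae_ne volume y, Measure.ae_ne volume (y + ξ)] with t e1 e2
      simp only [cP]
      simp only [hP, pc]
      refine continuousAt_const.mul (ContinuousAt.mul ?_ ?_)
      · exact Complex.continuous_ofReal.continuousAt.comp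
          ((ph_contAt (sub_ne_zero.2 e1)).comp_of_eq (by fun_prop) rfl)
      · exact Complex.continuous_ofReal.continuousAt.comp
          ((ph_contAt (s := t - y - ξ) fun e => e2 (by linarith)).comp_of_eq (by fun_prop) rfl)
  have h2 := Rat.denseRange_cast.equalizer (g := cor k P) (h := fun _ => 0) c1 continuous_const
    (funext h1)
  refine FU hk fun w => ?_
  have h3 := ft_cor hk iP w
  have h4 : ft P w = Am (-w) ξ := by
    rw [ft, Am, cor]; congr 1; funext s; simp only [hP, conj_pc, neg_mul]; ring
  rw [h2, h4] at h3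
  simp only [ft, zero_mul, integral_zero] at h3
  exact (mul_eq_zero.1 h3.symm).resolve_right (by simpa using Am_ne (-w) hξ)

lemma sqz {p : ℝ → ℂ} (h : ∀ᵐ t, ∀ᵐ s, p t * conj (p s) = 0) : p =ᵐ[volume] 0 := by
  by_contra h0
  obtain ⟨t, h1, h2⟩ := ((not_eventually.1 h0).and_eventually h).exists
  exact h0 (h2.mono fun s hs => by simpa using (mul_eq_zero.1 hs).resolve_left h1)

lemma fin {f h : ℝ → ℂ} (H : ∀ᵐ t, ∀ᵐ s, f t * conj (f s) = h t * conj (h s)) :
    ∃ c : ℂ, ‖c‖ = 1 ∧ f =ᵐ[volume] fun t => c * h t := by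
  by_cases h0 : f =ᵐ[volume] 0
  · have : h =ᵐ[volume] 0 := sqz <| by
      filter_upwards [H, h0] with t e1 e2
      exact e1.mono fun s hs => by rw [← hs, e2]; simp
    exact ⟨1, norm_one, by filter_upwards [h0, this] with t e1 e2; simp [e1, e2]⟩
  obtain ⟨t, h1, h2⟩ := ((not_eventually.1 h0).and_eventually H).exists
  have h3 : f =ᵐ[volume] fun s => conj (h t / f t) * h s := h2.mono fun s hs => by
    have : conj (f s) = h t / f t * conj (h s) := by
      rw [div_mul_eq_mul_div, ← hs, mul_div_cancel_left₀ _ h1]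
    simpa using congrArg conj this
  refine ⟨_, ?_, h3⟩
  set c := conj (h t / f t)
  by_contra hc
  have h4 : c * conj c - 1 ≠ 0 := by
    rw [Complex.mul_conj', sub_ne_zero]
    intro e
    have : ‖c‖ ^ 2 = 1 := by exact_mod_cast e
    exact hc ((pow_eq_one_iff_of_nonneg (norm_nonneg _) two_ne_zero).1 this)
  have : h =ᵐ[volume] 0 := sqz <| by
    filter_upwards [H, h3] with t e1 e2
    filter_upwards [e1, h3] with s e3 e4
    rw [e2, e4, map_mul] at e3
    refine (mul_eq_zero.1 ?_).resolve_left h4
    linear_combination e3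
  exact h0 (by filter_upwards [h3, this] with s e1 e2; simp [e1, e2])

lemma main {L : Set ℝ} (hc : L.Countable) (hL : UP L) {f h : ℝ → ℂ} (mf : Measurable f)
    (mh : Measurable h) (hf : MemLp f 2 volume) (hh : MemLp h 2 volume)
    (H : ∀ x ∈ L, ∀ w ∈ L, ‖ft (wf f x) w‖ = ‖ft (wf h x) w‖) :
    ∃ c : ℂ, ‖c‖ = 1 ∧ f =ᵐ[volume] fun t => c * h t := by
  have h1 := (ae_ball_iff hc).2 fun x hx => stepW hL hf hh x (H x hx)
  have h2 : ∀ᵐ u : ℝ, u ∉ range fun n : ℤ => (n / 2 : ℝ) :=
    (countable_range _).measure_zero volume |> compl_mem_ae_iff.2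
  have ik : ∀ {f : ℝ → ℂ}, MemLp f 2 volume → ∀ u, Integrable fun t => f t * conj (f (t - u)) :=
    fun hf u => hf.integrable_mul
      (hf.comp_measurePreserving (measurePreserving_sub_right volume u)).star
  have h3 : ∀ᵐ u : ℝ, ∀ᵐ t, f t * conj (f (t - u)) = h t * conj (h (t - u)) := by
    filter_upwards [h1, h2] with u e1 e2
    have hξ : |u - round u| < 1 / 2 := by
      refine (abs_sub_round u).lt_of_ne fun e => e2 ?_
      rcases (abs_eq (by norm_num)).1 e with e | e
      · exact ⟨2 * round u + 1, by push_cast; linarith⟩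
      · exact ⟨2 * round u - 1, by push_cast; linarith⟩
    refine (stepX hL ((ik hf u).sub (ik hh u)) (round u) hξ fun x hx => ?_).mono
      fun t ht => sub_eq_zero.1 ht
    have bb : ∀ {f : ℝ → ℂ}, MemLp f 2 volume → Integrable fun t =>
        f t * conj (f (t - u)) * (conj (gg (t - x)) * gg (t - u - x)) := fun hf => by
      refine (ik hf u).mul_bdd (c := 1) (Measurable.aestronglyMeasurable ?_) (ae_of_all _ fun t => ?_)
      · exact (Complex.continuous_conj.measurable.comp (gg_meas.comp (measurable_sub_const _))).mul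
          (gg_meas.comp ((measurable_sub_const _).sub_const _))
      · rw [norm_mul, Complex.norm_conj]
        exact mul_le_one₀ ((gg_le _).trans (cc_le _)) (norm_nonneg _) ((gg_le _).trans (cc_le _))
    have ec : ∀ f : ℝ → ℂ, cor (wf f x) (wf f x) u =
        ∫ t, f t * conj (f (t - u)) * (conj (gg (t - x)) * gg (t - u - x)) := fun f => by
      rw [cor]; congr 1; funext t; simp only [wf, map_mul, Complex.conj_conj]; ring
    simp only [add_sub_cancel, Pi.sub_apply, sub_mul]
    rw [integral_sub (bb hf) (bb hh), ← ec, ← ec, e1 x hx, sub_self]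
  have mc := Complex.continuous_conj.measurable
  rw [Measure.ae_ae_comm (p := fun u t => f t * conj (f (t - u)) = h t * conj (h (t - u)))
    (measurableSet_eq_fun
    ((mf.comp measurable_snd).mul (mc.comp (mf.comp (measurable_snd.sub measurable_fst))))
    ((mh.comp measurable_snd).mul (mc.comp (mh.comp (measurable_snd.sub measurable_fst)))))] at h3
  refine fin (h3.mono fun t ht => ?_)
  simpa using (Measure.measurePreserving_sub_left volume t).quasiMeasurePreserving.ae ht

end Pool.Agent.H.MP_4928aa_an
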